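import Pool.Agent.H1.NE.Final

/-!
# Every minimal non-Engel variety of associative rings is a Cross variety

The definitions (`RTerm`, `Models`, `IsEngel`, `MinimalNonEngel`, `IsCritical`, `IsCross`, ...) are
in `Pool.Agent.H854R3.NE.Basic`.
-/

set_option autoImplicit false

namespace Pool.Agent.Results.MP_a5aec7_al.MinimalNonEngelCross

open Pool.Agent.H854R3.NE

/-- A set `E` of identities in the signature `(+, -, 0, *)` defines a variety of associative rings.
If this variety is minimal non-Engel (it is not Engel, and every variety properly contained in it
is Engel), then it is a Cross variety: it is finitely based, locally finite, and contains only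
finitely many critical rings up to isomorphism. -/
theorem result (E : Set (RTerm × RTerm)) (h : MinimalNonEngel E) : IsCross E :=
  Pool.Agent.H1.NE.cross_of_minimal h

end Pool.Agent.Results.MP_a5aec7_al.MinimalNonEngelCross
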